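import Pool.Agent.K3h60.CA.Stm

/-!
# Brick AUC: a potential bounds the expected welfare of clock auctions (by helper79)
-/

set_option autoImplicit false

open Finset

namespace Pool.Agent.K3h79.CA

open Pool.Agent.K3h60.CA

/-! ### weighted sums over boxes -/

section Box

variable {N : Type} [Fintype N] [DecidableEq N] {K : ℕ}

/-- averaging over one coordinate -/
theorem sum_avg (p : Fin (K + 1) → ℝ) (hp : ∑ s, p s = 1) (y : N)
    (H : (N → Fin (K + 1)) → ℝ) :
    ∑ ω : N → Fin (K + 1), (∏ i, p (ω i)) * H ω =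
      ∑ ω : N → Fin (K + 1), (∏ i, p (ω i)) * ∑ s, p s * H (Function.update ω y s) := by
  let f : (N → Fin (K + 1)) × Fin (K + 1) → (N → Fin (K + 1)) × Fin (K + 1) :=
    fun x => (Function.update x.1 y x.2, x.1 y)
  have hf : Function.Involutive f := by
    rintro ⟨ω, s⟩
    simp [f]
  have hw : ∀ ω : N → Fin (K + 1), ∏ i, p (ω i) = p (ω y) * ∏ i ∈ univ.erase y, p (ω i) :=
    fun ω => (Finset.mul_prod_erase univ (fun i => p (ω i)) (mem_univ y)).symm
  have h1 : ∑ ω : N → Fin (K + 1), (∏ i, p (ω i)) * ∑ s, p s * H (Function.update ω y s) =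
      ∑ x : (N → Fin (K + 1)) × Fin (K + 1), (∏ i, p (x.1 i)) * p x.2 *
        H (Function.update x.1 y x.2) := by
    rw [Fintype.sum_prod_type]
    refine Finset.sum_congr rfl fun ω _ => ?_
    rw [Finset.mul_sum]
    exact Finset.sum_congr rfl fun s _ => by ring
  have h2 : ∑ ω : N → Fin (K + 1), (∏ i, p (ω i)) * H ω =
      ∑ x : (N → Fin (K + 1)) × Fin (K + 1), (∏ i, p (x.1 i)) * p x.2 * H x.1 := by
    rw [Fintype.sum_prod_type]
    refine Finset.sum_congr rfl fun ω _ => ?_
    have : ∀ s, (∏ i, p (ω i)) * p s * H ω = p s * ((∏ i, p (ω i)) * H ω) := fun s => by ring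
    simp only [this]
    rw [← Finset.sum_mul, hp, one_mul]
  rw [h1, h2, ← Equiv.sum_comp hf.toPerm]
  refine Finset.sum_congr rfl fun x _ => ?_
  obtain ⟨ω, s⟩ := x
  simp only [Function.Involutive.coe_toPerm, f]
  rw [hw, hw]
  have h3 : ∏ i ∈ univ.erase y, p (Function.update ω y s i) = ∏ i ∈ univ.erase y, p (ω i) := by
    refine Finset.prod_congr rfl fun i hi => ?_
    rw [Function.update_of_ne (Finset.ne_of_mem_erase hi)]
  rw [h3, Function.update_self]
  ring

open Classical in
/-- weighted sum over the box of the `ω ≥ st` -/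
noncomputable def E (p : Fin (K + 1) → ℝ) (st : N → Fin (K + 1)) (G : (N → Fin (K + 1)) → ℝ) : ℝ :=
  ∑ ω : N → Fin (K + 1), (∏ i, p (ω i)) * ((if ∀ i, st i ≤ ω i then 1 else 0) * G ω)

omit [Fintype N] in
theorem box_update (st ω : N → Fin (K + 1)) (y : N) (s : Fin (K + 1)) :
    (∀ i, st i ≤ Function.update ω y s i) ↔
      (st y ≤ s ∧ ∀ i, Function.update st y 0 i ≤ ω i) := by
  constructor
  · intro h
    refine ⟨by simpa using h y, fun i => ?_⟩
    by_cases hi : i = y
    · subst hi
      simp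
    · have := h i
      rw [Function.update_of_ne hi] at this ⊢
      exact this
  · rintro ⟨h1, h2⟩ i
    by_cases hi : i = y
    · subst hi
      simpa using h1
    · have := h2 i
      rw [Function.update_of_ne hi] at this ⊢
      exact this

open Classical in
/-- one coordinate of the box -/
theorem E_coord (p : Fin (K + 1) → ℝ) (hp : ∑ s, p s = 1) (st : N → Fin (K + 1)) (y : N)
    (G : (N → Fin (K + 1)) → ℝ) :
    E p st G = ∑ ω : N → Fin (K + 1), (∏ i, p (ω i)) *
      ((if ∀ i, Function.update st y 0 i ≤ ω i then 1 else 0) *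
        ∑ s, (if st y ≤ s then p s else 0) * G (Function.update ω y s)) := by
  unfold E
  rw [sum_avg p hp y]
  refine Finset.sum_congr rfl fun ω _ => ?_
  congr 1
  rw [Finset.mul_sum]
  refine Finset.sum_congr rfl fun s _ => ?_
  simp only [box_update st ω y s]
  by_cases h1 : st y ≤ s
  · by_cases h2 : ∀ i, Function.update st y 0 i ≤ ω i
    · rw [if_pos ⟨h1, h2⟩, if_pos h1, if_pos h2]
      ring
    · rw [if_neg (fun h => h2 h.2), if_neg h2]
      ring
  · rw [if_neg (fun h => h1 h.1), if_neg h1]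
    ring

/-- the tail probabilities -/
noncomputable def tl (p : Fin (K + 1) → ℝ) (s : Fin (K + 1)) : ℝ := ∑ i, if s ≤ i then p i else 0

/-- independence of one coordinate -/
theorem E_indep (p : Fin (K + 1) → ℝ) (hp : ∑ s, p s = 1) (st : N → Fin (K + 1)) (y : N)
    (G : (N → Fin (K + 1)) → ℝ) (g : Fin (K + 1) → ℝ) (G₂ : (N → Fin (K + 1)) → ℝ)
    (h : ∀ ω s, st y ≤ s → G (Function.update ω y s) = g s * G₂ ω) :
    E p st G = (∑ s, if st y ≤ s then p s * g s else 0) * E p (Function.update st y 0) G₂ := by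
  classical
  rw [E_coord p hp st y G]
  unfold E
  rw [Finset.mul_sum]
  refine Finset.sum_congr rfl fun ω _ => ?_
  have h1 : ∑ s, (if st y ≤ s then p s else 0) * G (Function.update ω y s) =
      (∑ s, if st y ≤ s then p s * g s else 0) * G₂ ω := by
    rw [Finset.sum_mul]
    refine Finset.sum_congr rfl fun s _ => ?_
    split_ifs with hs
    · rw [h ω s hs]
      ring
    · ring
  rw [h1]
  ring

theorem E_one_update (p : Fin (K + 1) → ℝ) (hp : ∑ s, p s = 1) (st : N → Fin (K + 1)) (y : N) :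
    E p st (fun _ => 1) = tl p (st y) * E p (Function.update st y 0) (fun _ => 1) := by
  rw [E_indep p hp st y (fun _ => 1) (fun _ => 1) (fun _ => 1) (fun _ _ _ => by ring)]
  unfold tl
  simp only [mul_one]

theorem E_nonneg (p : Fin (K + 1) → ℝ) (hp0 : ∀ s, 0 ≤ p s) (st : N → Fin (K + 1))
    (G : (N → Fin (K + 1)) → ℝ) (hG : ∀ ω, 0 ≤ G ω) : 0 ≤ E p st G := by
  unfold E
  refine Finset.sum_nonneg fun ω _ => ?_
  refine mul_nonneg (Finset.prod_nonneg fun i _ => hp0 _) (mul_nonneg ?_ (hG ω))
  split_ifs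
  · exact zero_le_one
  · exact le_refl _

theorem E_congr (p : Fin (K + 1) → ℝ) (st : N → Fin (K + 1)) (G G' : (N → Fin (K + 1)) → ℝ)
    (h : ∀ ω, (∀ i, st i ≤ ω i) → G ω = G' ω) : E p st G = E p st G' := by
  unfold E
  refine Finset.sum_congr rfl fun ω _ => ?_
  split_ifs with hω
  · rw [h ω hω]
  · ring

/-- splitting a coordinate -/
theorem E_split (p : Fin (K + 1) → ℝ) (hp : ∑ s, p s = 1) (st : N → Fin (K + 1)) (y : N)
    (j : Fin (K + 1)) (hj : st y ≤ j) (G G₁ G₂ : (N → Fin (K + 1)) → ℝ)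
    (h1 : ∀ ω s, j ≤ s → G (Function.update ω y s) = G₁ (Function.update ω y s))
    (h2 : ∀ ω s, st y ≤ s → s < j → G (Function.update ω y s) = G₂ ω) :
    E p st G = E p (Function.update st y j) G₁ +
      (tl p (st y) - tl p j) * E p (Function.update st y 0) G₂ := by
  classical
  rw [E_coord p hp st y G, E_coord p hp (Function.update st y j) y G₁]
  unfold E
  rw [Finset.mul_sum, ← Finset.sum_add_distrib]
  refine Finset.sum_congr rfl fun ω _ => ?_
  simp only [Function.update_idem, Function.update_self]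
  have h3 : ∑ s, (if st y ≤ s then p s else 0) * G (Function.update ω y s) =
      ∑ s, (if j ≤ s then p s else 0) * G₁ (Function.update ω y s) +
        (tl p (st y) - tl p j) * G₂ ω := by
    unfold tl
    rw [← Finset.sum_sub_distrib, Finset.sum_mul, ← Finset.sum_add_distrib]
    refine Finset.sum_congr rfl fun s _ => ?_
    by_cases hs : j ≤ s
    · rw [if_pos (hj.trans hs), if_pos hs, h1 ω s hs]
      ring
    · rw [if_neg hs]
      by_cases hs' : st y ≤ s
      · rw [if_pos hs', h2 ω s hs' (not_le.mp hs)]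
        ring
      · rw [if_neg hs']
        ring
  rw [h3]
  ring

end Box

/-! ### the tail probabilities -/

theorem tail_nat (K : ℕ) (f : ℕ → ℝ) (s : Fin (K + 1)) :
    ∑ i : Fin (K + 1), (if s ≤ i then f i else 0) = ∑ i ∈ Icc (s : ℕ) K, f i := by
  have h1 : ∑ i : Fin (K + 1), (if s ≤ i then f i else 0) =
      ∑ i : Fin (K + 1), (fun k : ℕ => if (s : ℕ) ≤ k then f k else 0) i := by
    refine Finset.sum_congr rfl fun i _ => ?_
    rfl
  rw [h1, Fin.sum_univ_eq_sum_range (fun k : ℕ => if (s : ℕ) ≤ k then f k else 0) (K + 1),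
    ← Finset.sum_filter]
  refine Finset.sum_congr ?_ fun _ _ => rfl
  ext k
  simp only [mem_filter, mem_range, mem_Icc]
  omega

theorem sum_prob (Q : ℕ → ℝ) (K s : ℕ) (hs : 1 ≤ s) (hsK : s ≤ K) :
    ∑ i ∈ Icc s K, prob Q K i = Q s := by
  induction K, hsK using Nat.le_induction generalizing Q with
  | base =>
    rw [Icc_self, sum_singleton]
    unfold prob
    rw [if_neg (by omega), if_pos rfl, sub_zero]
  | succ K hK ih =>
    rw [← Finset.insert_Icc_right_eq_Icc_add_one (by omega), Finset.sum_insert (by simp)]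
    have h1 : prob Q (K + 1) (K + 1) = Q (K + 1) := by
      unfold prob
      rw [if_neg (by omega), if_pos rfl, sub_zero]
    have h2 : ∑ i ∈ Icc s K, prob Q (K + 1) i = ∑ i ∈ Icc s K, (prob Q K i -
        if i = K then Q (K + 1) else 0) := by
      refine Finset.sum_congr rfl fun i hi => ?_
      rw [mem_Icc] at hi
      unfold prob
      rw [if_neg (by omega), if_neg (by omega), if_neg (by omega)]
      by_cases h : i = K
      · subst h
        simp
      · rw [if_neg h, if_neg h, sub_zero]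
    rw [h2, Finset.sum_sub_distrib, ih, Finset.sum_ite_eq', if_pos (by rw [mem_Icc]; omega), h1]
    ring

/-! ### the auction -/

open Classical in
/-- the welfare after at most `n` more rounds -/
noncomputable def Wn {N : Type} {F : Set (Finset N)} (𝒜 : PreAuction N F) :
    ℕ → List (Finset N) → (N → ℝ) → ℝ
  | 0, h, v => if 𝒜.stop h then ∑ i ∈ h.headD ∅, v i else 0
  | n + 1, h, v => if 𝒜.stop h then ∑ i ∈ h.headD ∅, v i else
      Wn 𝒜 n (((h.headD ∅).filter fun i => 𝒜.price h i ≤ v i) :: h) v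

theorem Wn_congr {N : Type} {F : Set (Finset N)} (𝒜 : PreAuction N F) (n : ℕ)
    (h : List (Finset N)) (v v' : N → ℝ) (hv : ∀ i ∈ h.headD ∅, v i = v' i) :
    Wn 𝒜 n h v = Wn 𝒜 n h v' := by
  classical
  induction n generalizing h with
  | zero =>
    unfold Wn
    rw [Finset.sum_congr rfl hv]
  | succ n ih =>
    unfold Wn
    rw [Finset.sum_congr rfl hv]
    have h1 : ((h.headD ∅).filter fun i => 𝒜.price h i ≤ v i) =
        ((h.headD ∅).filter fun i => 𝒜.price h i ≤ v' i) :=
      Finset.filter_congr fun i hi => by rw [hv i hi]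
    rw [h1]
    congr 1
    apply ih
    intro i hi
    exact hv i (Finset.mem_filter.mp hi).1

theorem Wn_stop {N : Type} {F : Set (Finset N)} (𝒜 : PreAuction N F) (n : ℕ)
    (h : List (Finset N)) (v : N → ℝ) (hs : 𝒜.stop h) :
    Wn 𝒜 n h v = ∑ i ∈ h.headD ∅, v i := by
  cases n with
  | zero => unfold Wn; rw [if_pos hs]
  | succ n => unfold Wn; rw [if_pos hs]

theorem Wn_hist {N : Type} [Fintype N] {F : Set (Finset N)} (𝒜 : PreAuction N F) (v : N → ℝ)
    (n t : ℕ) (ht : ∀ t' < t, ¬ 𝒜.stop (𝒜.hist v t')) :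
    Wn 𝒜 (n + t) (𝒜.hist v 0) v = Wn 𝒜 n (𝒜.hist v t) v := by
  classical
  induction t generalizing n with
  | zero => rfl
  | succ t ih =>
    have h1 := ih (n + 1) (fun t' h => ht t' (by omega))
    rw [show n + (t + 1) = n + 1 + t by ring, h1]
    conv_lhs => unfold Wn
    rw [if_neg (ht t (by omega))]
    rfl

theorem welfare_eq {N : Type} [Fintype N] {F : Set (Finset N)} (𝒜 : ClockAuction N F) (v : N → ℝ)
    (hv : ∀ i, 0 ≤ v i) : ∃ t₀, ∀ n, t₀ ≤ n → 𝒜.welfare v = Wn 𝒜.toPreAuction n [univ] v := by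
  classical
  have h1 : (sInf {t | 𝒜.stop (𝒜.hist v t)}) ∈ {t | 𝒜.stop (𝒜.hist v t)} :=
    Nat.sInf_mem (𝒜.term v hv)
  refine ⟨sInf {t | 𝒜.stop (𝒜.hist v t)}, fun n hn => ?_⟩
  obtain ⟨k, rfl⟩ := Nat.exists_eq_add_of_le' hn
  have h2 := Wn_hist 𝒜.toPreAuction v k (sInf {t | 𝒜.stop (𝒜.hist v t)})
    (fun t' ht' => Nat.notMem_of_lt_sInf ht')
  have h3 : 𝒜.toPreAuction.hist v 0 = [univ] := rfl
  rw [← h3, h2, Wn_stop _ _ _ _ h1]
  rfl

/-! ### the main inequality -/

theorem u_mono (K : ℕ) (u : ℕ → ℝ) (hu : ∀ s, 1 ≤ s → s < K → u s ≤ u (s + 1)) (a b : ℕ)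
    (ha : 1 ≤ a) (hab : a ≤ b) (hb : b ≤ K) : u a ≤ u b := by
  induction b, hab using Nat.le_induction with
  | base => exact le_refl _
  | succ b hab ih => exact (ih (by omega)).trans (hu b (by omega) (by omega))

section Main

variable {N : Type} [Fintype N] [DecidableEq N] {K : ℕ} {Q u : ℕ → ℝ} {F : Set (Finset N)}
  {V : (N → Fin (K + 1)) → ℝ}

/-- the probabilities of the levels -/
noncomputable abbrev pr (K : ℕ) (Q : ℕ → ℝ) (s : Fin (K + 1)) : ℝ := prob Q K s

theorem pr_nonneg (hQpos : ∀ s, 1 ≤ s → s ≤ K → 0 < Q s)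
    (hQ : ∀ s, 1 ≤ s → s < K → Q (s + 1) ≤ Q s) (s : Fin (K + 1)) : 0 ≤ pr K Q s := by
  unfold pr prob
  by_cases h0 : (s : ℕ) = 0
  · rw [if_pos h0]
  · rw [if_neg h0]
    by_cases hK : (s : ℕ) = K
    · rw [if_pos hK, sub_zero]
      exact (hQpos s (by omega) (by omega)).le
    · rw [if_neg hK]
      have := s.2
      exact sub_nonneg.mpr (hQ s (by omega) (by omega))

theorem tl_eq (s : Fin (K + 1)) (hs : s ≠ 0) : tl (pr K Q) s = Q s := by
  have h1 : 1 ≤ (s : ℕ) := by
    rcases Nat.eq_zero_or_pos (s : ℕ) with h | h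
    · exact absurd (Fin.ext h) hs
    · exact h
  unfold tl pr
  rw [tail_nat K (fun i => prob Q K i) s]
  exact sum_prob Q K s h1 (by have := s.2; omega)

theorem pr_sum (hK : 1 ≤ K) (hQ1 : Q 1 = 1) : ∑ s, pr K Q s = 1 := by
  have h1 := tail_nat K (fun i => prob Q K i) 0
  have h2 : ∑ i : Fin (K + 1), (if (0 : Fin (K + 1)) ≤ i then prob Q K i else 0) =
      ∑ s, pr K Q s := Finset.sum_congr rfl fun i _ => by rw [if_pos (Fin.zero_le i)]
  rw [← h2, h1, ← Finset.insert_Icc_add_one_left_eq_Icc (by simp),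
    Finset.sum_insert (by simp)]
  have h3 : prob Q K ((0 : Fin (K + 1)) : ℕ) = 0 := by
    unfold prob
    simp
  rw [h3, zero_add]
  have h4 := sum_prob Q K 1 le_rfl hK
  simpa [hQ1] using h4

open Classical in
/-- one round: the buyers of `B` decide one after the other -/
theorem multi (hK : 1 ≤ K) (hQ1 : Q 1 = 1) (hQpos : ∀ s, 1 ≤ s → s ≤ K → 0 < Q s)
    (hQ : ∀ s, 1 ≤ s → s < K → Q (s + 1) ≤ Q s)
    (hu : ∀ s, 1 ≤ s → s < K → u s ≤ u (s + 1)) (hV : SH K Q V)
    (𝒜 : PreAuction N F) (n : ℕ) (h : List (Finset N))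
    (IH : ∀ (D : Finset N) (st : N → Fin (K + 1)), (∀ i, st i ≠ 0 ↔ i ∈ D) →
      E (pr K Q) st (fun ω => Wn 𝒜 n (D :: h) (fun y => u (ω y))) ≤
        E (pr K Q) st (fun _ => 1) * V st) (q : N → ℝ) (B : Finset N) :
    ∀ (D : Finset N) (st : N → Fin (K + 1)), Disjoint B D → (∀ i, st i ≠ 0 ↔ i ∈ B ∪ D) →
      E (pr K Q) st (fun ω => Wn 𝒜 n ((D ∪ B.filter (fun i => q i ≤ u (ω i))) :: h)
        (fun y => u (ω y))) ≤ E (pr K Q) st (fun _ => 1) * V st := by
  have hp := pr_sum hK hQ1
  have hp0 := pr_nonneg hQpos hQ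
  induction B using Finset.induction_on with
  | empty =>
    intro D st _ hst
    simp only [Finset.filter_empty, Finset.union_empty]
    apply IH
    simpa using hst
  | insert y B hyB ihB =>
    intro D st hdis hst
    have hyD : y ∉ D := by
      rw [Finset.disjoint_insert_left] at hdis
      exact hdis.1
    have hdis' : Disjoint B D := by
      rw [Finset.disjoint_insert_left] at hdis
      exact hdis.2
    have hy0 : st y ≠ 0 := (hst y).mpr (by simp)
    set G : (N → Fin (K + 1)) → ℝ := fun ω =>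
      Wn 𝒜 n ((D ∪ (insert y B).filter (fun i => q i ≤ u (ω i))) :: h) (fun y => u (ω y)) with hG
    set G₁ : (N → Fin (K + 1)) → ℝ := fun ω =>
      Wn 𝒜 n ((insert y D ∪ B.filter (fun i => q i ≤ u (ω i))) :: h) (fun y => u (ω y)) with hG1
    set G₂ : (N → Fin (K + 1)) → ℝ := fun ω =>
      Wn 𝒜 n ((D ∪ B.filter (fun i => q i ≤ u (ω i))) :: h) (fun y => u (ω y)) with hG2
    have c1 : ∀ (ω : N → Fin (K + 1)) (s : Fin (K + 1)), q y ≤ u s →
        G (Function.update ω y s) = G₁ (Function.update ω y s) := by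
      intro ω s hs
      simp only [hG, hG1]
      rw [Finset.filter_insert, if_pos (by rw [Function.update_self]; exact hs),
        Finset.union_insert, Finset.insert_union]
    have c2 : ∀ (ω : N → Fin (K + 1)) (s : Fin (K + 1)), ¬ q y ≤ u s →
        G (Function.update ω y s) = G₂ ω := by
      intro ω s hs
      simp only [hG, hG2]
      rw [Finset.filter_insert, if_neg (by rw [Function.update_self]; exact hs)]
      have h1 : B.filter (fun i => q i ≤ u (Function.update ω y s i)) =
          B.filter (fun i => q i ≤ u (ω i)) := by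
        refine Finset.filter_congr fun i hi => ?_
        have : i ≠ y := fun h => hyB (h ▸ hi)
        rw [Function.update_of_ne this]
      rw [h1]
      apply Wn_congr
      intro i hi
      have hi' : i ∈ D ∪ B.filter (fun i => q i ≤ u (ω i)) := hi
      have : i ≠ y := by
        rintro rfl
        rcases Finset.mem_union.mp hi' with h | h
        · exact hyD h
        · exact hyB (Finset.mem_filter.mp h).1
      rw [Function.update_of_ne this]
    have e0 : 0 ≤ E (pr K Q) (Function.update st y 0) (fun _ => 1) :=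
      E_nonneg _ hp0 _ _ fun _ => zero_le_one
    have eL := E_one_update (pr K Q) hp st y
    have b2 : E (pr K Q) (Function.update st y 0) G₂ ≤
        E (pr K Q) (Function.update st y 0) (fun _ => 1) * V (Function.update st y 0) := by
      apply ihB D (Function.update st y 0) hdis'
      intro i
      by_cases hi : i = y
      · subst hi
        simp [hyB, hyD]
      · rw [Function.update_of_ne hi, hst i]
        simp [hi]
    have hQL : 0 < Q (st y) := by
      have h1 := (st y).2
      have h2 : (st y : ℕ) ≠ 0 := fun h => hy0 (Fin.ext h)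
      exact hQpos _ (by omega) (by omega)
    have tL : tl (pr K Q) (st y) = Q (st y) := tl_eq _ hy0
    by_cases hS : (univ.filter fun s : Fin (K + 1) => st y ≤ s ∧ q y ≤ u s).Nonempty
    · set j := (univ.filter fun s : Fin (K + 1) => st y ≤ s ∧ q y ≤ u s).min' hS with hj
      have hjS := Finset.min'_mem _ hS
      rw [← hj, Finset.mem_filter] at hjS
      obtain ⟨-, hLj, hqj⟩ := hjS
      have hj0 : j ≠ 0 := by
        intro h
        rw [h] at hLj
        exact hy0 (le_antisymm hLj (Fin.zero_le _))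
      have tj : tl (pr K Q) j = Q j := tl_eq _ hj0
      have hsp := E_split (pr K Q) hp st y j hLj G G₁ G₂
        (fun ω s hs => c1 ω s (hqj.trans (u_mono K u hu j s
          (by
            have : (j : ℕ) ≠ 0 := fun h => hj0 (Fin.ext h)
            omega) hs (by have := s.2; omega))))
        (fun ω s hs1 hs2 => c2 ω s (fun hq => by
          have h1 : j ≤ s := Finset.min'_le _ _ (Finset.mem_filter.mpr ⟨mem_univ s, hs1, hq⟩)
          exact absurd h1 (not_le.mpr hs2)))
      rw [hsp, eL]
      have b1 : E (pr K Q) (Function.update st y j) G₁ ≤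
          E (pr K Q) (Function.update st y j) (fun _ => 1) * V (Function.update st y j) := by
        apply ihB (insert y D) (Function.update st y j)
        · rw [Finset.disjoint_insert_right]
          exact ⟨hyB, hdis'⟩
        · intro i
          by_cases hi : i = y
          · subst hi
            simp [hj0]
          · rw [Function.update_of_ne hi, hst i]
            simp [hi]
      have ej := E_one_update (pr K Q) hp (Function.update st y j) y
      rw [Function.update_idem, Function.update_self] at ej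
      rw [ej] at b1
      rcases eq_or_lt_of_le hLj with heq | hlt
      · rw [← heq, Function.update_eq_self] at b1
        rw [← heq, Function.update_eq_self, sub_self, zero_mul, add_zero]
        exact b1
      · have hsh := hV.1 st y j (Fin.pos_of_ne_zero hy0) hlt
        have hdiff : 0 ≤ tl (pr K Q) (st y) - tl (pr K Q) j := by
          unfold tl
          rw [← Finset.sum_sub_distrib]
          refine Finset.sum_nonneg fun i _ => ?_
          by_cases h1 : j ≤ i
          · rw [if_pos h1, if_pos (hLj.trans h1), sub_self]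
          · rw [if_neg h1, sub_zero]
            split_ifs
            · exact hp0 i
            · exact le_refl _
        have h3 : (tl (pr K Q) (st y) - tl (pr K Q) j) *
            E (pr K Q) (Function.update st y 0) G₂ ≤
            (tl (pr K Q) (st y) - tl (pr K Q) j) *
            (E (pr K Q) (Function.update st y 0) (fun _ => 1) * V (Function.update st y 0)) :=
          mul_le_mul_of_nonneg_left b2 hdiff
        have h4 : Q (st y) * E (pr K Q) (Function.update st y 0) (fun _ => 1) *
            (Q j / Q (st y) * V (Function.update st y j) +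
              (1 - Q j / Q (st y)) * V (Function.update st y 0)) ≤
            Q (st y) * E (pr K Q) (Function.update st y 0) (fun _ => 1) * V st :=
          mul_le_mul_of_nonneg_left hsh (mul_nonneg hQL.le e0)
        have h5 : Q (st y) * E (pr K Q) (Function.update st y 0) (fun _ => 1) *
            (Q j / Q (st y) * V (Function.update st y j) +
              (1 - Q j / Q (st y)) * V (Function.update st y 0)) =
            Q j * E (pr K Q) (Function.update st y 0) (fun _ => 1) * V (Function.update st y j) +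
            (Q (st y) - Q j) * (E (pr K Q) (Function.update st y 0) (fun _ => 1) *
              V (Function.update st y 0)) := by
          field_simp
          try ring
        rw [h5] at h4
        rw [tL, tj] at h3
        rw [tj] at b1
        rw [tL, tj]
        linarith
    · have hS' : ∀ s : Fin (K + 1), st y ≤ s → ¬ q y ≤ u s := by
        intro s hs hq
        exact hS ⟨s, Finset.mem_filter.mpr ⟨mem_univ s, hs, hq⟩⟩
      have hin := E_indep (pr K Q) hp st y G (fun _ => 1) G₂
        (fun ω s hs => by rw [c2 ω s (hS' s hs), one_mul])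
      have ht : (∑ s, if st y ≤ s then pr K Q s * 1 else 0) = tl (pr K Q) (st y) := by
        unfold tl
        simp only [mul_one]
      rw [ht] at hin
      rw [hin, eL, tL, mul_assoc]
      refine mul_le_mul_of_nonneg_left ?_ hQL.le
      exact b2.trans (mul_le_mul_of_nonneg_left (hV.2 st y) e0)

/-- the payoff of a stopped auction -/
theorem stopped (hK : 1 ≤ K) (hQ1 : Q 1 = 1) (hQpos : ∀ s, 1 ≤ s → s ≤ K → 0 < Q s)
    (hQ : ∀ s, 1 ≤ s → s < K → Q (s + 1) ≤ Q s)
    (hpay : ∀ st, ∀ S ∈ F, ∑ y ∈ S, rate Q u K (st y) ≤ V st)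
    (A : Finset N) (hA : ∃ T ∈ F, A ⊆ T) (st : N → Fin (K + 1)) (hst : ∀ i, st i ≠ 0 ↔ i ∈ A) :
    E (pr K Q) st (fun ω => ∑ i ∈ A, u (ω i)) ≤ E (pr K Q) st (fun _ => 1) * V st := by
  have hp := pr_sum hK hQ1
  have hp0 := pr_nonneg hQpos hQ
  obtain ⟨T, hTF, hAT⟩ := hA
  have h1 : E (pr K Q) st (fun ω => ∑ i ∈ A, u (ω i)) =
      ∑ i ∈ A, E (pr K Q) st (fun ω => u (ω i)) := by
    unfold E
    rw [Finset.sum_comm]
    refine Finset.sum_congr rfl fun ω _ => ?_
    rw [Finset.mul_sum, Finset.mul_sum]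
  have h2 : ∀ i ∈ A, E (pr K Q) st (fun ω => u (ω i)) =
      E (pr K Q) st (fun _ => 1) * rate Q u K (st i) := by
    intro i hi
    have hi0 : st i ≠ 0 := (hst i).mpr hi
    have hi1 : (st i : ℕ) ≠ 0 := fun h => hi0 (Fin.ext h)
    have hQi : 0 < Q (st i) := hQpos _ (by omega) (by have := (st i).2; omega)
    rw [E_indep (pr K Q) hp st i (fun ω => u (ω i)) (fun s => u s) (fun _ => 1)
      (fun ω s _ => by rw [Function.update_self, mul_one]), E_one_update (pr K Q) hp st i,
      tl_eq _ hi0]
    have h3 : (∑ s, if st i ≤ s then pr K Q s * u s else 0) = Q (st i) * rate Q u K (st i) := by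
      unfold rate
      rw [if_neg hi1, mul_div_cancel₀ _ hQi.ne',
        ← tail_nat K (fun k => u k * prob Q K k) (st i)]
      refine Finset.sum_congr rfl fun s _ => ?_
      simp only [pr, mul_comm]
    rw [h3]
    ring
  rw [h1, Finset.sum_congr rfl h2, ← Finset.mul_sum]
  refine mul_le_mul_of_nonneg_left ?_ (E_nonneg _ hp0 _ _ fun _ => zero_le_one)
  refine le_trans (le_of_eq ?_) (hpay st T hTF)
  refine Finset.sum_subset hAT fun i _ hiA => ?_
  have h0 : st i = 0 := by
    by_contra h
    exact hiA ((hst i).mp h)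
  unfold rate
  rw [h0]
  simp

theorem main (hK : 1 ≤ K) (hQ1 : Q 1 = 1) (hQpos : ∀ s, 1 ≤ s → s ≤ K → 0 < Q s)
    (hQ : ∀ s, 1 ≤ s → s < K → Q (s + 1) ≤ Q s) 
    (hu : ∀ s, 1 ≤ s → s < K → u s ≤ u (s + 1))
    (hpay : ∀ st, ∀ S ∈ F, ∑ y ∈ S, rate Q u K (st y) ≤ V st) (hV : SH K Q V)
    (hV0 : ∀ st, 0 ≤ V st) (𝒜 : PreAuction N {S | ∃ T ∈ F, S ⊆ T}) (n : ℕ) :
    ∀ (h : List (Finset N)) (A : Finset N) (st : N → Fin (K + 1)), (∀ i, st i ≠ 0 ↔ i ∈ A) →
      E (pr K Q) st (fun ω => Wn 𝒜 n (A :: h) (fun y => u (ω y))) ≤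
        E (pr K Q) st (fun _ => 1) * V st := by
  classical
  have hp := pr_sum hK hQ1
  have hp0 := pr_nonneg hQpos hQ
  induction n with
  | zero =>
    intro h A st hst
    by_cases hs : 𝒜.stop (A :: h)
    · have h1 : (fun ω : N → Fin (K + 1) => Wn 𝒜 0 (A :: h) (fun y => u (ω y))) =
          fun ω => ∑ i ∈ A, u (ω i) := by
        funext ω
        rw [Wn_stop _ _ _ _ hs]
        rfl
      rw [h1]
      exact stopped hK hQ1 hQpos hQ hpay A (𝒜.feas h A hs) st hst
    · have h1 : (fun ω : N → Fin (K + 1) => Wn 𝒜 0 (A :: h) (fun y => u (ω y))) =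
          fun _ => 0 := by
        funext ω
        unfold Wn
        rw [if_neg hs]
      rw [h1]
      have h2 : E (pr K Q) st (fun _ => 0) = 0 := by
        unfold E
        simp
      rw [h2]
      exact mul_nonneg (E_nonneg _ hp0 _ _ fun _ => zero_le_one) (hV0 st)
  | succ n ih =>
    intro h A st hst
    by_cases hs : 𝒜.stop (A :: h)
    · have h1 : (fun ω : N → Fin (K + 1) => Wn 𝒜 (n + 1) (A :: h) (fun y => u (ω y))) =
          fun ω => ∑ i ∈ A, u (ω i) := by
        funext ω
        rw [Wn_stop _ _ _ _ hs]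
        rfl
      rw [h1]
      exact stopped hK hQ1 hQpos hQ hpay A (𝒜.feas h A hs) st hst
    · have h1 : (fun ω : N → Fin (K + 1) => Wn 𝒜 (n + 1) (A :: h) (fun y => u (ω y))) =
          fun ω => Wn 𝒜 n ((∅ ∪ A.filter (fun i => 𝒜.price (A :: h) i ≤ u (ω i))) :: (A :: h))
            (fun y => u (ω y)) := by
        funext ω
        conv_lhs => unfold Wn
        rw [if_neg hs, Finset.empty_union]
        rfl
      rw [h1]
      exact multi hK hQ1 hQpos hQ hu hV 𝒜 n (A :: h) (ih (A :: h)) (𝒜.price (A :: h)) A ∅ st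
        (Finset.disjoint_empty_right _) (by simpa using hst)

end Main

theorem rate_nonneg (K : ℕ) (Q u : ℕ → ℝ) (hQpos : ∀ s, 1 ≤ s → s ≤ K → 0 < Q s)
    (hQ : ∀ s, 1 ≤ s → s < K → Q (s + 1) ≤ Q s) (hu1 : 0 ≤ u 1)
    (hu : ∀ s, 1 ≤ s → s < K → u s ≤ u (s + 1)) (s : Fin (K + 1)) : 0 ≤ rate Q u K s := by
  unfold rate
  split_ifs with h0
  · exact le_refl _
  · have h1 := s.2
    refine div_nonneg (Finset.sum_nonneg fun i hi => ?_) (hQpos s (by omega) (by omega)).le
    rw [mem_Icc] at hi
    refine mul_nonneg (hu1.trans (u_mono K u hu 1 i le_rfl (by omega) (by omega))) ?_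
    exact pr_nonneg hQpos hQ ⟨i, by omega⟩

theorem hist_cons {N : Type} [Fintype N] {F : Set (Finset N)} (𝒜 : PreAuction N F) (v : N → ℝ)
    (t : ℕ) : ∃ (A : Finset N) (h : List (Finset N)), 𝒜.hist v t = A :: h := by
  cases t with
  | zero => exact ⟨univ, [], rfl⟩
  | succ t => exact ⟨_, _, rfl⟩

end Pool.Agent.K3h79.CA

namespace Pool.Agent.K3h60.CA

open Pool.Agent.K3h79.CA

theorem t_AUC : S_AUC := by
  classical
  intro K Q u N _ _ F V hK hQ1 hQpos hQ hu0 hu1 hu hpay hV 𝒜
  have hp := pr_sum (K := K) (Q := Q) hK hQ1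
  have hp0 := pr_nonneg (K := K) (Q := Q) hQpos hQ
  have hun : ∀ s : Fin (K + 1), 0 ≤ u s := by
    intro s
    rcases Nat.eq_zero_or_pos (s : ℕ) with h | h
    · rw [h, hu0]
    · exact hu1.trans (u_mono K u hu 1 s le_rfl h (by have := s.2; omega))
  -- the potential is nonnegative
  obtain ⟨t, ht⟩ := 𝒜.term (fun _ => 0) fun _ => le_refl _
  obtain ⟨A, h, hAh⟩ := hist_cons 𝒜.toPreAuction (fun _ => 0) t
  rw [hAh] at ht
  obtain ⟨T, hTF, -⟩ := 𝒜.feas h A ht
  have hV0 : ∀ st, 0 ≤ V st := fun st =>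
    le_trans (Finset.sum_nonneg fun y _ => rate_nonneg K Q u hQpos hQ hu1 hu (st y))
      (hpay st T hTF)
  -- the number of rounds is bounded
  have hw := fun ω : N → Fin (K + 1) => welfare_eq 𝒜 (fun y => u (ω y)) (fun y => hun (ω y))
  choose t₀ ht₀ using hw
  set n := Finset.univ.sup t₀ with hn
  have hm := main (V := V) hK hQ1 hQpos hQ hu hpay hV hV0 𝒜.toPreAuction n [] univ (fun _ => 1)
    (fun i => by
      have h1 : (1 : Fin (K + 1)) ≠ 0 := by
        intro h
        have := congrArg Fin.val h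
        rw [Fin.coe_ofNat_eq_mod, Fin.val_zero, Nat.mod_eq_of_lt (by omega)] at this
        omega
      simp [h1])
  have hzero : pr K Q 0 = 0 := by
    unfold pr prob
    simp
  have hbox : ∀ G : (N → Fin (K + 1)) → ℝ, E (pr K Q) (fun _ => 1) G =
      ∑ ω : N → Fin (K + 1), (∏ y, pr K Q (ω y)) * G ω := by
    intro G
    unfold E
    refine Finset.sum_congr rfl fun ω _ => ?_
    by_cases hω : ∀ i : N, (1 : Fin (K + 1)) ≤ ω i
    · rw [if_pos hω, one_mul]
    · push Not at hω
      obtain ⟨i, hi⟩ := hω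
      have h0 : ω i = 0 := by
        have h1 : ((1 : Fin (K + 1)) : ℕ) = 1 := by
          rw [Fin.coe_ofNat_eq_mod, Nat.mod_eq_of_lt (by omega)]
        have h2 : (ω i : ℕ) < ((1 : Fin (K + 1)) : ℕ) := hi
        apply Fin.ext
        rw [h1] at h2
        have : (ω i : ℕ) = 0 := by omega
        rw [this]
        rfl
      rw [Finset.prod_eq_zero (mem_univ i) (by rw [h0]; exact hzero)]
      ring
  have hone : E (pr K Q) (fun _ : N => (1 : Fin (K + 1))) (fun _ => 1) = 1 := by
    rw [hbox]
    simp only [mul_one]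
    have h1 := Finset.prod_univ_sum (fun _ : N => (univ : Finset (Fin (K + 1))))
      (fun _ s => pr K Q s)
    rw [Fintype.piFinset_univ] at h1
    rw [← h1, Finset.prod_congr rfl fun _ _ => hp, Finset.prod_const_one]
  rw [hbox, hone, one_mul] at hm
  refine le_trans (le_of_eq ?_) hm
  refine Finset.sum_congr rfl fun ω _ => ?_
  rw [ht₀ ω n (Finset.le_sup (mem_univ ω))]

end Pool.Agent.K3h60.CA
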